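import Mathlib

/-!
# Classes of embeddings of a family of CM fields, and local types of Weil numbers
-/

set_option autoImplicit false

namespace Pool.Agent.H395.Local

open NumberField Module

/-- The complex embeddings of all fields of a family. -/
def Embs {I : Type} (K : I → Type) [∀ i, Field (K i)] : Type := Σ i, (K i →+* ℂ)

variable {I : Type} {K : I → Type} [∀ i, Field (K i)]

/-- The automorphisms of the complex numbers act on the embeddings. -/
def move (τ : ℂ ≃+* ℂ) (x : Embs K) : Embs K := ⟨x.1, (τ : ℂ →+* ℂ).comp x.2⟩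

/-- The complex conjugate embedding. -/
def bar (x : Embs K) : Embs K := ⟨x.1, ComplexEmbedding.conjugate x.2⟩

/-- Some automorphism fixes one of the embeddings `x`, `y` and conjugates the other one, or it moves
`x` to `y` and `y` to the conjugate of `x`. -/
def Flipped (x y : Embs K) : Prop :=
  ∃ τ : ℂ ≃+* ℂ, (move τ x = x ∧ move τ y = bar y) ∨ (move τ x = bar x ∧ move τ y = y) ∨
    (move τ x = y ∧ move τ y = bar x)

/-- The equivalence relation generated by the pairs which are not flipped. -/
def SameClass : Embs K → Embs K → Prop := Relation.EqvGen fun x y => ¬ Flipped x y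

/-- The class of `x` consists of translates of `x`. -/
def OneOrbit (x : Embs K) : Prop := ∀ z, SameClass x z → ∃ τ : ℂ ≃+* ℂ, move τ x = z

/-- The class of `x` consists of `b` pairs of complex conjugate embeddings. -/
def HasPairs (x : Embs K) (b : ℕ) : Prop := Nat.card {z : Embs K // SameClass x z} = 2 * b


/-- The number `2 s - m`, where `s` is the slope of `π i` at the embedding `x` of the field `K i`
(the `p`-adic valuation, with value one at `p`) and `m` is the weight of `π i`; the complex numbers
are identified with the algebraic closure of `ℚ_p`. -/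
noncomputable def deviation (p : ℕ) [Fact p.Prime] (m : I → ℕ) (π : ∀ i, K i)
    (ν : PadicAlgCl p ≃+* ℂ) (x : Embs K) : ℝ :=
  2 * (- Real.logb p ‖ν.symm (x.2 (π x.1))‖) - m x.1

/-- The rational numbers `q z` are the deviations. -/
def IsDeviation (p : ℕ) [Fact p.Prime] (m : I → ℕ) (π : ∀ i, K i) (ν : PadicAlgCl p ≃+* ℂ)
    (q : Embs K → ℚ) : Prop :=
  ∀ z, (q z : ℝ) = deviation p m π ν z

/-- The deviations of `π i` are odd multiples of one number. -/
def OddDeviations (p : ℕ) [Fact p.Prime] (m : I → ℕ) (π : ∀ i, K i) (i : I) : Prop :=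
  ∃ c : ℝ, c ≠ 0 ∧ ∀ τ : K i →+* PadicAlgCl p, ∃ n : ℤ, Odd n ∧
    2 * (- Real.logb p ‖τ (π i)‖) - m i = c * n

/-- Two pairs in the class of `x₀` can be moved to any two pairs. -/
def PairTransitive (x₀ : Embs K) : Prop :=
  ∀ x y x' y' : Embs K, SameClass x₀ x → SameClass x₀ y → SameClass x₀ x' → SameClass x₀ y' →
    y ≠ x → y ≠ bar x → y' ≠ x' → y' ≠ bar x' → ∃ τ : ℂ ≃+* ℂ,
      ((move τ x = x' ∨ move τ x = bar x') ∧ (move τ y = y' ∨ move τ y = bar y')) ∨
      ((move τ x = y' ∨ move τ x = bar y') ∧ (move τ y = x' ∨ move τ y = bar x'))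

/-- The first type: the deviations are odd multiples of one number; the number of pairs in the class
is one, or a prime number, or it is odd and any two pairs can be moved to any two pairs, or it is a
power of two and some automorphism which preserves the class maps an odd number of elements of a half
system out of it. -/
def OddType (p : ℕ) [Fact p.Prime] (m : I → ℕ) (π : ∀ i, K i) (x : Embs K) : Prop :=
  OddDeviations p m π x.1 ∧
    ((OneOrbit x ∧ ∃ b : ℕ, HasPairs x b ∧ (b = 1 ∨ b.Prime ∨ (PairTransitive x ∧ Odd b))) ∨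
      (OneOrbit x ∧ (∃ k : ℕ, HasPairs x (2 ^ k)) ∧ ∃ (τ : ℂ ≃+* ℂ) (S : Set (Embs K)),
        SameClass x (move τ x) ∧ (∀ z ∈ S, SameClass x z) ∧
          (∀ z, SameClass x z → (z ∈ S ↔ bar z ∉ S)) ∧ Odd {z | z ∈ S ∧ move τ z ∉ S}.ncard))

/-- The second type: the deviations on the class are multiples `c * n` of one number, the number of
pairs is a power of a prime number `r`, and the sums of the integers `n` over the half systems of the
class are not divisible by `r`. -/
def SumType (p : ℕ) [Fact p.Prime] (m : I → ℕ) (π : ∀ i, K i) (x : Embs K) : Prop :=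
  ∃ (ν : PadicAlgCl p ≃+* ℂ) (c : ℝ) (n : Embs K → ℤ), c ≠ 0 ∧
    (∀ z, SameClass x z → deviation p m π ν z = c * n z) ∧ OneOrbit x ∧
      ∃ r k : ℕ, r.Prime ∧ HasPairs x (r ^ k) ∧ ∀ S : Finset (Embs K),
        (∀ z ∈ S, SameClass x z) → (∀ z, SameClass x z → (z ∈ S ↔ bar z ∉ S)) →
          ¬ (r : ℤ) ∣ ∑ z ∈ S, n z

/-- The unitary type: the class consists of translates of `x`, and it is the union of a block `R`
and of the complex conjugate block; `R` has `r ^ k` elements, `r` a prime number. The sum of the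
deviations over `R` is not zero, and on `R` they are of the form `α * n + β` with integers `n` whose
sum is not divisible by `r`. -/
def UnitaryType (p : ℕ) [Fact p.Prime] (m : I → ℕ) (π : ∀ i, K i) (x : Embs K) : Prop :=
  ∃ (ν : PadicAlgCl p ≃+* ℂ) (q : Embs K → ℚ), IsDeviation p m π ν q ∧ OneOrbit x ∧
    ∃ (r k : ℕ) (R : Finset (Embs K)) (α β : ℚ) (n : Embs K → ℤ), r.Prime ∧ R.card = r ^ k ∧
      (∀ z, SameClass x z ↔ (z ∈ R ∨ bar z ∈ R)) ∧ (∀ z ∈ R, bar z ∉ R) ∧
      (∀ τ : ℂ ≃+* ℂ, ∀ z ∈ R, move τ z ∈ R → ∀ w ∈ R, move τ w ∈ R) ∧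
      (∀ z ∈ R, q z = α * n z + β) ∧
      α ≠ 0 ∧ ∑ z ∈ R, q z ≠ 0 ∧ ¬ (r : ℤ) ∣ ∑ z ∈ R, n z

noncomputable instance [Fintype I] [∀ i, NumberField (K i)] : Fintype (Embs K) :=
  inferInstanceAs (Fintype (Σ i, (K i →+* ℂ)))

open Classical in
/-- The dominated type: for every field of the family with an embedding in the class of `x` there is
an embedding `z` of this field whose deviation dominates the other deviations in the class of `z`,
up to some positive weights `t` of the fields: for the usual absolute value its double is larger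
than the sum of the others, or for the absolute value of some prime number it is larger than the
others. -/
def DominatedType [Fintype I] [∀ i, NumberField (K i)] (p : ℕ) [Fact p.Prime] (m : I → ℕ)
    (π : ∀ i, K i) (x : Embs K) : Prop :=
  ∃ (ν : PadicAlgCl p ≃+* ℂ) (q : Embs K → ℚ) (t : I → ℚ), IsDeviation p m π ν q ∧
    (∀ i, 0 < t i) ∧
    ((∀ y, SameClass x y → ∃ z : Embs K, z.1 = y.1 ∧
      ∑ w with (SameClass z w ∧ w ≠ z ∧ w ≠ bar z), t w.1 * |q w| < 2 * (t z.1 * |q z|)) ∨
    ∃ l : ℕ, l.Prime ∧ ∀ y, SameClass x y → ∃ z : Embs K, z.1 = y.1 ∧ q z ≠ 0 ∧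
      ∀ w, SameClass z w → w ≠ z → w ≠ bar z →
        t w.1 * padicNorm l (q w) < t z.1 * padicNorm l (q z))

/-- Any two different embeddings which agree on `F` can be moved to any other two by an automorphism
of the complex numbers, if the four embeddings agree on `F`. -/
def DoublyTransitive {E : Type} [Field E] [NumberField E] (F : IntermediateField ℚ E) : Prop :=
  ∀ φ₁ φ₂ ψ₁ ψ₂ : E →+* ℂ, φ₁ ≠ φ₂ → ψ₁ ≠ ψ₂ →
    (∀ x ∈ F, φ₂ x = φ₁ x ∧ ψ₁ x = φ₁ x ∧ ψ₂ x = φ₁ x) →
      ∃ τ : ℂ ≃+* ℂ, (τ : ℂ →+* ℂ).comp φ₁ = ψ₁ ∧ (τ : ℂ →+* ℂ).comp φ₂ = ψ₂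

/-- The norm of `π` to `F` is supersingular: the number `N(π) ^ 2 / p ^ (m [E : F])` is a root of
unity. -/
def SupersingularNorm (p m : ℕ) {E : Type} [Field E] [NumberField E] (π : E)
    (F : IntermediateField ℚ E) : Prop :=
  ∃ s : ℕ, 0 < s ∧ (Algebra.norm F π ^ 2 / (p : F) ^ (m * finrank F E)) ^ s = 1

/-- The number `b` is one, or a prime number, or the degree of `E` over a CM subfield such that the
automorphisms of the complex numbers act doubly transitively on the extensions of an embedding; and
for the CM subfields `F` of `E` with `[E : F] = b` the norm of `π` to `F` is not supersingular. -/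
def PrimitiveNumber (p m : ℕ) {E : Type} [Field E] [NumberField E] (π : E) (b : ℕ) : Prop :=
  (b = 1 ∨ b.Prime ∨ ∃ F : IntermediateField ℚ E, ¬ IsTotallyReal F ∧ finrank F E = b ∧
    DoublyTransitive F) ∧
  ∀ F : IntermediateField ℚ E, finrank F E = b → ¬ IsTotallyReal F → ¬ SupersingularNorm p m π F

/-- The primitive type: the class of the embedding `x` of the field `K i` consists of translates of
`x` and of `b` pairs, where `b` satisfies the conditions in `PrimitiveNumber`. -/
def PrimitiveType [∀ i, NumberField (K i)] (p : ℕ) (m : I → ℕ) (π : ∀ i, K i) (x : Embs K) : Prop :=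
  OneOrbit x ∧ ∃ b : ℕ, HasPairs x b ∧ PrimitiveNumber p (m x.1) (π x.1) b

/-- The irreducible type: the rational functions on the class of `x` which change their sign under
complex conjugation are an irreducible representation of the automorphisms of the complex numbers
which preserve the class. -/
def IrreducibleType (x : Embs K) : Prop :=
  ∀ V : Submodule ℚ (Embs K → ℚ),
    (∀ c ∈ V, (∀ z, c (bar z) = - c z) ∧ ∀ z, ¬ SameClass x z → c z = 0) →
    (∀ τ : ℂ ≃+* ℂ, SameClass x (move τ x) → ∀ c ∈ V, (fun z => c (move τ z)) ∈ V) →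
      V = ⊥ ∨ ∀ c : Embs K → ℚ, (∀ z, c (bar z) = - c z) → (∀ z, ¬ SameClass x z → c z = 0) →
        c ∈ V

/-- The class of the embedding `x` is of one of the six types. -/
def LocalType [Fintype I] [∀ i, NumberField (K i)] (p : ℕ) [Fact p.Prime] (m : I → ℕ)
    (π : ∀ i, K i) (x : Embs K) : Prop :=
  OddType p m π x ∨ SumType p m π x ∨ UnitaryType p m π x ∨ DominatedType p m π x ∨
    PrimitiveType p m π x ∨ IrreducibleType x

/-- All positive powers of the Weil numbers `π i` generate the fields `K i`, and every field `K i`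
has an embedding whose class is of one of the types. -/
def LocalTypes [Fintype I] [∀ i, NumberField (K i)] (p : ℕ) [Fact p.Prime] (m : I → ℕ)
    (π : ∀ i, K i) : Prop :=
  (∀ i, ∀ s : ℕ, 0 < s → IntermediateField.adjoin ℚ {π i ^ s} = ⊤) ∧
    ∀ i, ∃ φ : K i →+* ℂ, LocalType p m π ⟨i, φ⟩

end Pool.Agent.H395.Local
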