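import Mathlib
import Pool.Agent.H395.Types
import Pool.Agent.H395.Local.Defs

/-!
# The two forms of the definitions agree
-/

set_option autoImplicit false

namespace Pool.Agent.H395.Local

open NumberField Module

variable {I : Type} {K : I → Type} [∀ i, Field (K i)] [∀ i, NumberField (K i)]

theorem sameClass_iff (x y : Embs K) :
    SameClass x y ↔ Pool.Agent.TH127.SC.SameClass (F := K) x y := Iff.rfl

theorem oddType_iff (p : ℕ) [Fact p.Prime] (m : I → ℕ) (π : ∀ i, K i) (x : Embs K) :
    OddType p m π x ↔ Pool.Agent.TH127.SC.OddType p m π x := Iff.rfl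

theorem sumType_iff (p : ℕ) [Fact p.Prime] (m : I → ℕ) (π : ∀ i, K i) (x : Embs K) :
    SumType p m π x ↔ Pool.Agent.TH127.SC.SumType p m π x := Iff.rfl

theorem unitaryType_iff (p : ℕ) [Fact p.Prime] (m : I → ℕ) (π : ∀ i, K i) (x : Embs K) :
    UnitaryType p m π x ↔ Pool.Agent.H395.UnitaryType p m π x := Iff.rfl

theorem dominatedType_iff [Fintype I] (p : ℕ) [Fact p.Prime] (m : I → ℕ) (π : ∀ i, K i)
    (x : Embs K) : DominatedType p m π x ↔ Pool.Agent.H395.DominatedType p m π x := Iff.rfl

theorem primitiveType_iff (p : ℕ) (m : I → ℕ) (π : ∀ i, K i) (x : Embs K) :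
    PrimitiveType p m π x ↔ Pool.Agent.H395.PrimitiveType p m π x := Iff.rfl

theorem irreducibleType_iff (x : Embs K) :
    IrreducibleType x ↔ Pool.Agent.H395.IrreducibleType (K := K) x := Iff.rfl

theorem localTypes_iff [Fintype I] (p : ℕ) [Fact p.Prime] (m : I → ℕ) (π : ∀ i, K i) :
    LocalTypes p m π ↔ Pool.Agent.H395.LocalTypes p m π := Iff.rfl

end Pool.Agent.H395.Local
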