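import Mathlib
import Pool.Agent.H395.Local.Defs

/-!
# Criteria for local types: definitions
-/

set_option autoImplicit false

namespace Pool.Agent.H395.Local

open NumberField Module

open Classical in
/-- The embeddings of `E` which agree with `φ₀` on the subfield `F`. -/
noncomputable def agreeing {E : Type} [Field E] [NumberField E] (F : IntermediateField ℚ E)
    (φ₀ : E →+* ℂ) : Finset (E →+* ℂ) :=
  Finset.univ.filter fun φ => ∀ x ∈ F, φ x = φ₀ x

/-- The slope of `π` at the embedding `φ`: the `p`-adic valuation of `φ π`, with value one at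
`p`; the complex numbers are identified with the algebraic closure of `ℚ_p`. -/
noncomputable def slope (p : ℕ) [Fact p.Prime] {E : Type} [Field E] (ν : PadicAlgCl p ≃+* ℂ)
    (π : E) (φ : E →+* ℂ) : ℝ :=
  - Real.logb p ‖ν.symm (φ π)‖

/-- The hypothesis `LocalTypes` for the family which consists of the one number `π`, a Weil number of
weight `m` for `p`. -/
def LocalNumber (p : ℕ) [Fact p.Prime] (m : ℕ) {E : Type} [Field E] [NumberField E] (π : E) :
    Prop :=
  LocalTypes (K := fun _ : Unit => E) p (fun _ => m) (fun _ => π)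

/-- The field `F` is an imaginary quadratic subfield of `E` and `[E : F] = d`. -/
def IsImaginaryQuadratic {E : Type} [Field E] [NumberField E] (F : IntermediateField ℚ E) (d : ℕ) :
    Prop :=
  finrank ℚ F = 2 ∧ ¬ IsTotallyReal F ∧ finrank F E = d

/-- `LocalNumber` holds if `E` contains an imaginary quadratic field `F`, `[E : F] = r ^ k` is a
power of a prime number `r`, the slopes at the embeddings `φ` which agree with one embedding on `F`
are `α * n φ + β` with integers `n φ` whose sum is not divisible by `r`, and the sum of these slopes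
is not `m * r ^ k / 2`. -/
def QuadraticCriterion (p : ℕ) [Fact p.Prime] (m : ℕ) {E : Type} [Field E] [NumberField E]
    (π : E) : Prop :=
  ∀ (F : IntermediateField ℚ E) (r k : ℕ), r.Prime → IsImaginaryQuadratic F (r ^ k) →
    ∀ (ν : PadicAlgCl p ≃+* ℂ) (φ₀ : E →+* ℂ) (α β : ℚ) (n : (E →+* ℂ) → ℤ), α ≠ 0 →
      (∀ φ ∈ agreeing F φ₀, slope p ν π φ = α * n φ + β) →
      ∑ φ ∈ agreeing F φ₀, slope p ν π φ ≠ (m * r ^ k : ℝ) / 2 →
      ¬ (r : ℤ) ∣ ∑ φ ∈ agreeing F φ₀, n φ → LocalNumber p m π

/-- `LocalNumber` holds if `E` contains an imaginary quadratic field `F`, `[E : F] = r ^ k` is a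
power of a prime number `r`, all slopes of `π` are `0` or `m`, and for one embedding the number of
the embeddings which agree with it on `F` and have the slope `0` is not divisible by `r` and
different from `r ^ k / 2`. -/
def OrdinaryCriterion (p : ℕ) [Fact p.Prime] (m : ℕ) {E : Type} [Field E] [NumberField E]
    (π : E) : Prop :=
  0 < m → ∀ (F : IntermediateField ℚ E) (r k : ℕ), r.Prime → IsImaginaryQuadratic F (r ^ k) →
    ∀ (ν : PadicAlgCl p ≃+* ℂ) (φ₀ : E →+* ℂ),
      (∀ φ, slope p ν π φ = 0 ∨ slope p ν π φ = m) →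
      ¬ r ∣ {φ ∈ (agreeing F φ₀ : Set (E →+* ℂ)) | slope p ν π φ = 0}.ncard →
      2 * {φ ∈ (agreeing F φ₀ : Set (E →+* ℂ)) | slope p ν π φ = 0}.ncard ≠ r ^ k →
        LocalNumber p m π

/-- `LocalNumber` holds if for one embedding the distance of the slope from `m / 2` is larger than
one half of the sum of the distances at all embeddings that are different from it and from its
complex conjugate. -/
def DominanceCriterion (p : ℕ) [Fact p.Prime] (m : ℕ) {E : Type} [Field E] [NumberField E]
    (π : E) : Prop :=
  ∀ (ν : PadicAlgCl p ≃+* ℂ) (ψ : E →+* ℂ),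
    (∑ φ : E →+* ℂ, |slope p ν π φ - (m : ℝ) / 2|) < 4 * |slope p ν π ψ - (m : ℝ) / 2| →
      LocalNumber p m π

/-- Three criteria for a single CM field `E` and a Weil number `π` of weight `m` for the prime
number `p` all of whose powers generate `E`. -/
def SingleFieldCriteria : Prop :=
  ∀ (p : ℕ) [Fact p.Prime] (m : ℕ) (E : Type) [Field E] [NumberField E] [IsCMField E] (π : E),
    (∀ φ : E →+* ℂ, ‖φ π‖ ^ 2 = (p : ℝ) ^ m) →
    (∀ s : ℕ, 0 < s → IntermediateField.adjoin ℚ {π ^ s} = ⊤) →
      QuadraticCriterion p m π ∧ OrdinaryCriterion p m π ∧ DominanceCriterion p m π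

end Pool.Agent.H395.Local
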