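import Mathlib
import Pool.Agent.H395.Local.Bridge
import Pool.Agent.H395.Char0
import Pool.Graph.R_seed8.TH170.FT.MTDefs

/-!
# The Mumford-Tate conjecture from one Frobenius element with local types
-/

set_option autoImplicit false

namespace Pool.Agent.H395.Local

open NumberField Module Pool.Agent.H204R3.GP Pool.Agent.TH170

variable {p : ℕ} [Fact p.Prime] {a : ℕ} {I : Type} [Fintype I] {K : I → Type}
  [∀ i, Field (K i)] [∀ i, NumberField (K i)] [∀ i, IsCMField (K i)]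

theorem mumfordTate (ha : 0 < a) {π : ∀ i, K i} (hint : ∀ i, IsIntegral ℤ (π i))
    (hw : ∀ i, π i * IsCMField.complexConj (K i) (π i) = (p : K i) ^ a)
    (hloc : LocalTypes p (fun _ => a) π)
    {ℓ : ℕ} [Fact ℓ.Prime] {W T V Γ : Type} [AddCommGroup W] [Module ℚ W]
    [AddCommGroup T] [Module ℂ T] [AddCommGroup V] [Module ℚ_[ℓ] V] [FiniteDimensional ℚ_[ℓ] V]
    [Group Γ] {per : W →+ T} {ω₀ : W →ₗ[ℚ] W →ₗ[ℚ] ℚ} {comp : W →+ V}
    {ρ : Representation ℚ_[ℓ] Γ V} {χ : Γ →* ℚ_[ℓ]} {ω : V →ₗ[ℚ_[ℓ]] V →ₗ[ℚ_[ℓ]] ℚ_[ℓ]}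
    (hR : FT.IsRealization per ω₀ comp ρ χ ω) (hF : FT.HasFrobenius ρ χ p a π) :
    MumfordTateStrong per comp ρ χ := by
  obtain ⟨γ, hχ, hγ⟩ := hF
  exact mumfordTate_of_local ha hint hw hloc per ω₀ hR.hodge comp ρ χ ω hR.alternating
    hR.nondegenerate hR.equivariant hR.compatible hR.semisimple hR.faltings γ hχ hγ

end Pool.Agent.H395.Local
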