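import Mathlib
import Pool.Agent.H395.Local.Bridge
import Pool.Agent.H395.Local.CritDefs
import Pool.Agent.H395.Angle
import Pool.Agent.H395.Crit

/-!
# Maximal angle rank and the criteria, for the self-contained form of the definitions
-/

set_option autoImplicit false

namespace Pool.Agent.H395.Local

open NumberField Module Pool.Agent.Y137.MV

variable {p : ℕ} [hp : Fact p.Prime] {I : Type} [Fintype I] {K : I → Type} [∀ i, Field (K i)]
  [∀ i, NumberField (K i)] [∀ i, IsCMField (K i)] {a : ℕ} {π : ∀ i, K i}

/-- Weil numbers whose classes of embeddings are of the local types have maximal angle rank. -/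
theorem angle (hint : ∀ i, IsIntegral ℤ (π i))
    (hw : ∀ i, π i * IsCMField.complexConj (K i) (π i) = (p : K i) ^ a)
    (hloc : LocalTypes p (fun _ => a) π) : MaximalAngleRank (p ^ a) π :=
  angle_of_local hint hw hloc

omit [∀ i, IsCMField (K i)] in
theorem gen {m : I → ℕ} (hloc : LocalTypes p m π) (i : I) :
    IntermediateField.adjoin ℚ {π i} = ⊤ := by
  have h := hloc.1 i 1 one_pos
  rwa [pow_one] at h

theorem criteria : SingleFieldCriteria := fun p _ m E _ _ _ π hweil hgen =>
  Pool.Agent.H395.singleFieldCriteria_hold p m E π hweil hgen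

end Pool.Agent.H395.Local
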