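import Mathlib
import Pool.Agent.H395.Local.Main
import Pool.Agent.H395.Rel

/-!
# There are no relations between Weil numbers with classes of local types and unrelated numbers
-/

set_option autoImplicit false

namespace Pool.Agent.H395.Local

open NumberField Module Polynomial Pool.Agent.Y1.CT

variable {p : ℕ} [hp : Fact p.Prime] {I : Type} [Fintype I] {K : I → Type} [∀ i, Field (K i)]
  [∀ i, NumberField (K i)] [∀ i, IsCMField (K i)] {a : ℕ} {π : ∀ i, K i}

theorem noRel (hint : ∀ i, IsIntegral ℤ (π i))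
    (hw : ∀ i, π i * IsCMField.complexConj (K i) (π i) = (p : K i) ^ a)
    (hloc : LocalTypes p (fun _ => a) π) {f : I → ℤ[X]} (hf : ∀ i, IsPolyOf (π i) (f i)) :
    Pool.Agent.Y1.CT.NoRel f (p ^ a) (Unrelated K) :=
  noRel_unrelated hw (angle hint hw hloc) hf

theorem noRel' (hint : ∀ i, IsIntegral ℤ (π i))
    (hw : ∀ i, π i * IsCMField.complexConj (K i) (π i) = (p : K i) ^ a)
    (hloc : LocalTypes p (fun _ => a) π) {f : I → ℤ[X]} (hf : ∀ i, IsPolyOf (π i) (f i)) :
    Pool.Agent.Y1.CT.NoRel f (p ^ a) (Pool.Agent.Y1.CT.Independent K) :=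
  noRel_independent hw (angle hint hw hloc) hf

theorem one_lt {a : ℕ} (ha : 0 < a) : 1 < p ^ a := Nat.one_lt_pow ha.ne' hp.out.one_lt

end Pool.Agent.H395.Local
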